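import Pool.Agent.V8H6.CB.Fn

set_option autoImplicit false

/-!
# Moments of quadratic Dirichlet `L`-functions with one factor at, or at any point near, the centre

Let `s = ±1` and let `d` run over the fundamental discriminants of sign `s` with `1 < |d| < X`, that is, let `χ = χ_d`
run over the real primitive Dirichlet characters of conductor `q = |d|`, `2 ≤ q < X`, with `χ(-1) = s`. The recipe of
Conrey, Farmer, Keating, Rubinstein and Snaith predicts the moment with the shifts `z, iα_1, …, iα_k`; for small `z` and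
larger generic `α` two of its `2^(k+1)` terms are not of lower order:

`∑_d L(1/2 + z, χ_d) ∏_j L(1/2 + i α_j, χ_d)`
`  = (3/π²) (X M(z, iα) + 𝔛(1/2 + z, a) X^(1 - z) / (1 - z) M(-z, iα)) + O(X^(1 - δ))`,
`M(w) = A(w) ∏_{i ≤ j} ζ(1 + w_i + w_j)`.

We prove this, unconditionally, for every `k ≥ 1` and every `0 < θ ≤ 1`, after at most `X^(1 - δ)` discriminants have been
removed, for all `α` in `[-X^θ, X^θ]^k` outside a set of measure at most `X^(kθ - δ)`, and simultaneously for *all*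
complex `z` with `0 < |z| ≤ δ`. At the centre the two terms have poles which cancel, and the result is

`∑_d L(1/2, χ_d) ∏_j L(1/2 + i α_j, χ_d)`
`  = (3/(2π²)) X ((log X + 4 γ - 1 - 𝔛'(1/2, a)) B(0, α) + 2 B'(0, α)) + O(X^(1 - δ))`,
`B(z, α) = A(z, iα) ∏_j ζ(1 + z + iα_j) ∏_{i ≤ j} ζ(1 + iα_i + iα_j)`

(for `k = 0` this is the theorem of Jutila).

The proof. The factors `L(1/2 + i α_j, χ_d)` are replaced by Dirichlet polynomials of length `X^η`, in the mean square over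
the shifts and with the weights `L(1/2 + z, χ_d)`, outside `X^(1 - ν)` discriminants (Heath-Brown's large sieve for real
characters). The twisted first moment `∑_d L(1/2 + z, χ_d) χ_d(m)` is evaluated to the right of the line (by
Heath-Brown's large sieve and an average of `χ_d(n)` from the inequality of Polya and Vinogradov), to the left by the
functional equation, and in between by an interpolation between two vertical lines. The main term of the diagonal sum is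
identified on a line to the right, and this is carried to the centre by the same interpolation, in mean square over
`α`. Finally the difference, times `z`, is analytic in `z`, vanishes at `z = 0` and is small in mean square on a circle,
so that it is small for all `z` inside, by the Cauchy formula and the lemma of Schwarz.
-/

namespace Pool.Agent.Results.MP_ea46f5_nt.CentralFactor

open Complex MeasureTheory

noncomputable section

/-- The characters `χ_d` of the fundamental discriminants `d` of sign `s` with `|d| = q` (`q ≥ 2`): the real primitive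
characters modulo `q` with `χ(-1) = s`. -/
def chars (s : ℤ) (q : ℕ) : Set (DirichletCharacter ℂ q) :=
  {χ | χ.IsPrimitive ∧ χ ^ 2 = 1 ∧ χ (-1) = (s : ℂ)}

/-- The `L`-function of a Dirichlet character modulo `q ≥ 1` (the analytic continuation of `∑ χ(n) n^(-z)`). -/
def L {q : ℕ} (χ : DirichletCharacter ℂ q) (z : ℂ) : ℂ :=
  if h : q ≠ 0 then haveI : NeZero q := ⟨h⟩; DirichletCharacter.LFunction χ z else 0

/-- The moment: the sum of `L(1/2 + z, χ_d) ∏_j L(1/2 + i α_j, χ_d)` over the `d` of sign `s` with `2 ≤ |d| < X` and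
`|d|` not in `E`. -/
def moment {k : ℕ} (s : ℤ) (X : ℝ) (E : Finset ℕ) (z : ℂ) (α : Fin k → ℝ) : ℂ :=
  ∑ q ∈ Finset.Ico 2 ⌈X⌉₊ \ E, ∑ᶠ χ ∈ chars s q, L χ (1 / 2 + z) * ∏ j, L χ (1 / 2 + I * (α j : ℂ))

/-- The local factor of the Euler product at the prime `p`. -/
def localFactor {n : ℕ} (w : Fin n → ℂ) (p : ℕ) : ℂ :=
  (∏ i, ∏ j ∈ Finset.Ici i, (1 - (p : ℂ) ^ (-(1 + w i + w j)))) *
    (1 / 2 * ((∏ j, (1 - (p : ℂ) ^ (-(1 / 2 + w j)))⁻¹) + ∏ j, (1 + (p : ℂ) ^ (-(1 / 2 + w j)))⁻¹) + 1 / (p : ℂ)) *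
    (1 + 1 / (p : ℂ))⁻¹

/-- The Euler product `A_n(w_1, …, w_n)`. -/
def A {n : ℕ} (w : Fin n → ℂ) : ℂ := ∏' p : Nat.Primes, localFactor w p

/-- `M(w) = A(w) ∏_{i ≤ j} ζ(1 + w_i + w_j)`. -/
def M {n : ℕ} (w : Fin n → ℂ) : ℂ := A w * ∏ i, ∏ j ∈ Finset.Ici i, riemannZeta (1 + w i + w j)

/-- The vector `(z, iα_1, …, iα_k)`. -/
def shifts {k : ℕ} (z : ℂ) (α : Fin k → ℝ) : Fin (k + 1) → ℂ := Fin.cons z fun j => I * (α j : ℂ)

/-- `a = 0` for the sign `+`, `a = 1` for the sign `-`. -/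
def par (s : ℤ) : ℂ := if s = 1 then 0 else 1

/-- `𝔛(w, a) = π^(w - 1/2) Γ((1 - w + a)/2) / Γ((w + a)/2)`. -/
def XX (a w : ℂ) : ℂ := (Real.pi : ℂ) ^ (w - 1 / 2) * Gamma ((1 - w + a) / 2) / Gamma ((w + a) / 2)

/-- The two terms of the recipe. -/
def mainTerm {k : ℕ} (s : ℤ) (X : ℝ) (z : ℂ) (α : Fin k → ℝ) : ℂ :=
  3 / (Real.pi : ℂ) ^ 2 * (X * M (shifts z α) + XX (par s) (1 / 2 + z) * (X : ℂ) ^ (1 - z) / (1 - z) * M (shifts (-z) α))

/-- `B(z, α) = A(z, iα) ∏_j ζ(1 + z + iα_j) ∏_{i ≤ j} ζ(1 + iα_i + iα_j)`. -/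
def B {k : ℕ} (α : Fin k → ℝ) (z : ℂ) : ℂ :=
  A (shifts z α) * (∏ j, riemannZeta (1 + z + I * (α j : ℂ))) *
    ∏ i, ∏ j ∈ Finset.Ici i, riemannZeta (1 + I * (α i : ℂ) + I * (α j : ℂ))

/-- The main term at the centre. -/
def centralTerm {k : ℕ} (s : ℤ) (X : ℝ) (α : Fin k → ℝ) : ℂ :=
  3 / (2 * (Real.pi : ℂ) ^ 2) * X *
    (((Real.log X : ℂ) + 4 * Real.eulerMascheroniConstant - 1 - deriv (XX (par s)) (1 / 2)) * B α 0 + 2 * deriv (B α) 0)

lemma A_eq {n : ℕ} (w : Fin n → ℂ) : A w = Pool.Agent.N879.QM.Ak w := by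
  unfold A Pool.Agent.N879.QM.Ak
  refine tprod_congr fun p => ?_
  unfold localFactor Pool.Agent.N879.QM.loc
  rw [← Pool.Agent.N879.QM.prod_Pr (fun i j => 1 - ((p : ℕ) : ℂ) ^ (-(1 + w i + w j)))]

lemma M_eq {n : ℕ} (w : Fin n → ℂ) : M w = Pool.Agent.N879.QM.MT w := by
  unfold M Pool.Agent.N879.QM.MT
  rw [← Pool.Agent.N879.QM.prod_Pr (fun i j => riemannZeta (1 + w i + w j)), A_eq]

lemma B_eq {k : ℕ} (α : Fin k → ℝ) (z : ℂ) : B α z = Pool.Agent.V8H6.CB.B0 z α := by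
  unfold B Pool.Agent.V8H6.CB.B0 Pool.Agent.V8H6.CB.ZP
  rw [← Pool.Agent.N879.QM.prod_Pr (fun i j => riemannZeta (1 + I * (α i : ℂ) + I * (α j : ℂ))), A_eq]
  rfl

lemma XX_eq (s : ℤ) (z : ℂ) : XX (par s) (1 / 2 + z) = Pool.Agent.V8H6.CB.Yf s z := by
  have hpi : (Real.pi : ℂ) ≠ 0 := by exact_mod_cast Real.pi_ne_zero
  have ha : Pool.Agent.V8H6.CB.aa s = par s := rfl
  unfold XX Pool.Agent.V8H6.CB.Yf
  rw [ha, Gammaℝ_def, Gammaℝ_def]
  have e1 : (Real.pi : ℂ) ^ (-(1 / 2 - z + par s) / 2) =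
      (Real.pi : ℂ) ^ (1 / 2 + z - 1 / 2) * (Real.pi : ℂ) ^ (-(1 / 2 + z + par s) / 2) := by
    rw [← Complex.cpow_add _ _ hpi]
    congr 1
    ring
  have e2 : (Real.pi : ℂ) ^ (-(1 / 2 + z + par s) / 2) ≠ 0 := by
    rw [Ne, Complex.cpow_eq_zero_iff]
    exact fun h => hpi h.1
  rw [e1, show 1 - (1 / 2 + z) + par s = 1 / 2 - z + par s by ring]
  rw [mul_assoc, mul_comm ((Real.pi : ℂ) ^ (-(1 / 2 + z + par s) / 2)) (Gamma ((1 / 2 - z + par s) / 2)),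
    ← mul_assoc, mul_comm ((Real.pi : ℂ) ^ (-(1 / 2 + z + par s) / 2)) (Gamma ((1 / 2 + z + par s) / 2)),
    mul_div_mul_right _ _ e2]

lemma XX_deriv (s : ℤ) : deriv (XX (par s)) (1 / 2) = -(2 * Pool.Agent.V8H6.CB.Gl s) := by
  have h1 := Pool.Agent.V8H6.CB.Yf_deriv s
  have h2 : XX (par s) = fun w => Pool.Agent.V8H6.CB.Yf s (w - 1 / 2) := by
    funext w
    rw [← XX_eq, add_sub_cancel]
  have h3 : HasDerivAt (fun w : ℂ => Pool.Agent.V8H6.CB.Yf s (w - 1 / 2)) (-(2 * Pool.Agent.V8H6.CB.Gl s) * 1)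
      (1 / 2) := by
    refine HasDerivAt.comp (h₂ := Pool.Agent.V8H6.CB.Yf s) (h := fun w : ℂ => w - 1 / 2) (1 / 2) ?_ ?_
    · rw [sub_self]
      exact h1
    · exact (hasDerivAt_id (1 / 2 : ℂ)).sub_const (1 / 2)
  rw [h2, h3.deriv, mul_one]

lemma mainTerm_eq {k : ℕ} (s : ℤ) (X : ℝ) (z : ℂ) (α : Fin k → ℝ) :
    mainTerm s X z α = (Pool.Agent.N879.QM.c0 : ℂ) * (X * Pool.Agent.N879.QM.MT (Pool.Agent.V8H6.CB.cn z α) +
      Pool.Agent.V8H6.CB.YX s X z * Pool.Agent.N879.QM.MT (Pool.Agent.V8H6.CB.cn (-z) α)) := by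
  unfold mainTerm Pool.Agent.V8H6.CB.YX Pool.Agent.N879.QM.c0
  rw [XX_eq, M_eq, M_eq]
  push_cast
  rfl

lemma centralTerm_eq {k : ℕ} (s : ℤ) (X : ℝ) (α : Fin k → ℝ) :
    centralTerm s X α = Pool.Agent.V8H6.CB.M0 s X α := by
  have h : B α = fun z => Pool.Agent.V8H6.CB.B0 z α := funext fun z => B_eq α z
  unfold centralTerm Pool.Agent.V8H6.CB.M0 Pool.Agent.N879.QM.c0
  rw [XX_deriv, h]
  push_cast
  ring

lemma moment_eq {k : ℕ} (s : ℤ) (X : ℝ) (E : Finset ℕ) (z : ℂ) (α : Fin k → ℝ) :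
    moment s X E z α = Pool.Agent.V8H6.CB.LD s (Pool.Agent.N879.QM.Q s X \ E) z α := by
  classical
  have h1 : Pool.Agent.N879.QM.Q s X \ E =
      (Finset.Ico 2 ⌈X⌉₊ \ E).filter (Pool.Agent.N879.QM.Is s) := by
    ext q
    unfold Pool.Agent.N879.QM.Q
    simp only [Finset.mem_sdiff, Finset.mem_filter]
    tauto
  unfold Pool.Agent.V8H6.CB.LD
  rw [h1, Finset.sum_filter]
  refine Finset.sum_congr rfl fun q hq => ?_
  have hq2 : 2 ≤ q := (Finset.mem_Ico.1 (Finset.mem_sdiff.1 hq).1).1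
  split_ifs with h
  · have h2 : chars s q = {Pool.Agent.N879.QM.ch s q} :=
      Pool.Agent.N879.QM.Fq_eq Pool.Agent.N879.QM.t_UNI h
    rw [h2, finsum_mem_singleton]
    rfl
  · have h2 : chars s q = ∅ := Pool.Agent.N879.QM.Fq_empty hq2 h
    rw [h2, finsum_mem_empty]

/-- For all `k ≥ 1`, every sign `s` and every `0 < θ ≤ 1` there are `δ > 0` and `X₀` such that for all `X ≥ X₀` there is
a set `E` of at most `X^(1 - δ)` conductors such that for all real `α_1, …, α_k` with `|α_j| ≤ X^θ`, outside a set of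
measure at most `X^(kθ - δ)`, one has, for all complex `z` with `0 < |z| ≤ δ`,
`|∑_d L(1/2 + z, χ_d) ∏_j L(1/2 + i α_j, χ_d) -`
`  (3/π²) (X M(z, iα) + 𝔛(1/2 + z, a) X^(1 - z) / (1 - z) M(-z, iα))| ≤ X^(1 - δ)`,
the sum over the `d` of sign `s` with `2 ≤ |d| < X` and `|d|` not in `E`, and
`|∑_d L(1/2, χ_d) ∏_j L(1/2 + i α_j, χ_d) -`
`  (3/(2π²)) X ((log X + 4 γ - 1 - 𝔛'(1/2, a)) B(0, α) + 2 B'(0, α))| ≤ X^(1 - δ)`. -/
theorem result (k : ℕ) (hk : 1 ≤ k) (s : ℤ) (hs : s = 1 ∨ s = -1) (θ : ℝ) (hθ : 0 < θ) (hθ1 : θ ≤ 1) :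
    ∃ δ X₀ : ℝ, 0 < δ ∧ ∀ X : ℝ, X₀ ≤ X → ∃ E : Finset ℕ, (E.card : ℝ) ≤ X ^ (1 - δ) ∧
      volume {α : Fin k → ℝ | (∀ j, |α j| ≤ X ^ θ) ∧
        ¬ ((∀ z : ℂ, z ≠ 0 → ‖z‖ ≤ δ → ‖moment s X E z α - mainTerm s X z α‖ ≤ X ^ (1 - δ)) ∧
          ‖moment s X E 0 α - centralTerm s X α‖ ≤ X ^ (1 - δ))} ≤
        ENNReal.ofReal (X ^ (k * θ - δ)) := by
  classical
  obtain ⟨δ, X₀, hδ, h⟩ := Pool.Agent.V8H6.CB.central k hk s hs hθ hθ1
  refine ⟨δ, X₀, hδ, fun X hX => ?_⟩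
  obtain ⟨E, -, hE, h1⟩ := h X hX
  refine ⟨E, hE, ?_⟩
  rw [← Pool.Agent.N879.QM.vol_mS] at h1
  refine le_trans (le_of_eq ?_) h1
  congr 1
  ext α
  simp only [Set.mem_ofPred_eq, moment_eq, mainTerm_eq, centralTerm_eq]

end

end Pool.Agent.Results.MP_ea46f5_nt.CentralFactor
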