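import Pool.Agent.V8H36.CV.Mo
import Pool.Agent.V8H36.IN.Fin2

set_option autoImplicit false

/-!
# The size of the central values of quadratic Dirichlet L-functions

For each sign `s = 1, -1` let `chars s X` be the (finite) set of all real primitive Dirichlet
characters `χ ≠ 1` with `χ(-1) = s` and conductor at most `X`; these are the `χ_d`, `d` a
fundamental discriminant `≠ 1` of sign `s` with `|d| ≤ X`.

* `cv χ = |L(1/2,χ)|`,
* `sp X χ = ∑ χ(q)/√q` over the odd primes `q ≤ X^{1/log log X}`,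
* `Gt t` is the standard normal tail `P(Z > t)`.

Everything is unconditional.
-/

namespace Pool.Agent.Results.MP_ea46f5_nt.CentralValuesNormalLaw

open Filter Topology MeasureTheory ProbabilityTheory

noncomputable section

/-- the real primitive characters `χ ≠ 1` with `χ(-1) = s` and conductor at most `X` -/
def chars (s : ℤ) (X : ℕ) : Set (Σ N : ℕ, DirichletCharacter ℂ N) :=
  {p | p.1 ≠ 0 ∧ p.1 ≤ X ∧ p.2.IsPrimitive ∧ p.2 ^ 2 = 1 ∧ p.2 ≠ 1 ∧ p.2 (-1) = ((s : ℤ) : ℂ)}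

/-- `|L(1/2,χ)|` -/
def cv (p : Σ N : ℕ, DirichletCharacter ℂ N) : ℝ :=
  if h : p.1 = 0 then 0 else
    haveI : NeZero p.1 := ⟨h⟩
    ‖DirichletCharacter.LFunction p.2 (1 / 2)‖

/-- `∑ χ(q)/√q` over the odd primes `q ≤ X^{1/log log X}` -/
def sp (X : ℕ) (p : Σ N : ℕ, DirichletCharacter ℂ N) : ℝ :=
  ∑ q ∈ (Finset.range (⌊(X : ℝ) ^ (1 / Real.log (Real.log X))⌋₊ + 1)).filter
    (fun q => q.Prime ∧ q ≠ 2), (p.2 (q : ZMod p.1)).re / Real.sqrt q

/-- the tail of the standard normal law -/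
def Gt (t : ℝ) : ℝ := (gaussianReal 0 1 (Set.Ioi t)).toReal

theorem result (s : ℤ) (hs : s = 1 ∨ s = -1) :
    -- the family is finite and has at least `c X` elements
    (∀ X : ℕ, (chars s X).Finite) ∧
    (∃ c : ℝ, 0 < c ∧ ∀ᶠ X : ℕ in atTop, c * X ≤ (chars s X).ncard) ∧
    -- the size of `L(1/2,χ)` in terms of the primes up to `X^{1/log log X}`
    (∀ ε : ℝ, 0 < ε → ∃ C : ℝ, ∀ᶠ X : ℕ in atTop,
      (1 - ε) * (chars s X).ncard ≤ ((chars s X ∩ {p | cv p ≤
        Real.exp (1 / 2 * Real.log (Real.log X) + sp X p + C * Real.log (Real.log (Real.log X)))}).ncard : ℝ) ∧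
      (7 / 8 - ε) * (chars s X).ncard ≤ ((chars s X ∩ {p |
        Real.exp (1 / 2 * Real.log (Real.log X) + sp X p - C * Real.log (Real.log (Real.log X))) ≤ cv p ∧
        cv p ≤
        Real.exp (1 / 2 * Real.log (Real.log X) + sp X p + C * Real.log (Real.log (Real.log X)))}).ncard : ℝ)) ∧
    -- the law on the logarithmic scale, uniformly in `t` and in `a ≤ b`: half lines and intervals
    (∀ ε : ℝ, 0 < ε → ∀ᶠ X : ℕ in atTop,
      (∀ t : ℝ,
        (Gt t ^ 2 / (Gt t + 1 / 7) - ε) * (chars s X).ncard ≤ ((chars s X ∩ {p |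
          Real.exp (1 / 2 * Real.log (Real.log X) + t * Real.sqrt (Real.log (Real.log X))) < cv p}).ncard : ℝ) ∧
        ((chars s X ∩ {p |
          Real.exp (1 / 2 * Real.log (Real.log X) + t * Real.sqrt (Real.log (Real.log X))) < cv p}).ncard : ℝ) ≤
          (Gt t + ε) * (chars s X).ncard) ∧
      ∀ a b : ℝ, a ≤ b →
        ((Gt a - Gt b) ^ 2 / ((Gt a - Gt b) + 1 / 7) - ε) * (chars s X).ncard ≤ ((chars s X ∩ {p |
          Real.exp (1 / 2 * Real.log (Real.log X) + a * Real.sqrt (Real.log (Real.log X))) < cv p ∧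
          cv p < Real.exp (1 / 2 * Real.log (Real.log X) + b * Real.sqrt (Real.log (Real.log X)))}).ncard : ℝ)) ∧
    -- the moments: outside a set of density `≤ ε` they are at most `(log X)^{k/2+δ}`, and every set of
    -- density `≥ 1/8 + ε` carries at least `(log X)^{k/2-δ}`
    (∀ k δ ε : ℝ, 0 < k → 0 < δ → 0 < ε → ∀ᶠ X : ℕ in atTop,
      (∃ T : Finset (Σ N : ℕ, DirichletCharacter ℂ N), (T : Set _) ⊆ chars s X ∧
        (1 - ε) * (chars s X).ncard ≤ (T.card : ℝ) ∧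
        ∑ p ∈ T, cv p ^ k ≤ Real.log X ^ (k / 2 + δ) * (chars s X).ncard) ∧
      ∀ T : Finset (Σ N : ℕ, DirichletCharacter ℂ N), (T : Set _) ⊆ chars s X →
        (1 / 8 + ε) * (chars s X).ncard ≤ (T.card : ℝ) →
        Real.log X ^ (k / 2 - δ) * (chars s X).ncard ≤ ∑ p ∈ T, cv p ^ k) := by
  refine ⟨Pool.Agent.V8H36.CV.chars_fin s, Pool.Agent.V8H36.CV.size s hs,
    Pool.Agent.V8H36.CV.part1 s, Pool.Agent.V8H36.IN.law s, Pool.Agent.V8H36.CV.part3 s⟩

end

end Pool.Agent.Results.MP_ea46f5_nt.CentralValuesNormalLaw
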