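import Pool.Agent.V8H6.RW.Main

set_option autoImplicit false

/-!
# Moments of quadratic Dirichlet `L`-functions weighted by products and quotients of `L`-values off the critical line

Let `s = ±1` and let `d` run over the fundamental discriminants of sign `s` with `1 < |d| < X`, that is, let `χ = χ_d`
run over the real primitive Dirichlet characters of conductor `q = |d|`, `2 ≤ q < X`, with `χ(-1) = s`. We show,
unconditionally, for every `k ≥ 1`, all `a, b ≥ 0`, every `σ > 0` and every `0 < θ ≤ 1`: there is `δ > 0` such that for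
all large `X` and all complex numbers `u_1, …, u_a, v_1, …, v_b` of real part at least `1/2 + σ` and absolute value at
most `X^δ`, after at most `X^(1 - δ)` discriminants have been removed (a set that does not depend on the shifts `α`),
no `L(v_l, χ_d)` vanishes and

`∑_d ∏_j L(1/2 + i α_j, χ_d) ∏_i L(u_i, χ_d) / ∏_l L(v_l, χ_d) = (3/π²) X M(iα; u; v) + O(X^(1 - δ))`

for all shift vectors `α` in the cube `[-X^θ, X^θ]^k` outside a set of measure at most `X^(kθ - δ)`, where `M` is the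
main term of the recipe of Conrey, Farmer, Keating, Rubinstein and Snaith for moments (`a = b = 0`) and of Conrey,
Farmer and Zirnbauer for ratios. The `u_i` and `v_l` may be repeated: the weight `L(1, χ_d)^r`, `r` any integer, that is
a power of the class number (times that of the regulator) divided by the same power of `√|d|`, is a special case.

The proof. (1) Off the line: for `X^η` and all but `X^(1 - ν)` of the `d` each factor `L(u_i, χ_d)`, `L(v_l, χ_d)⁻¹` is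
its Dirichlet polynomial of length `X^η`, up to `X^(-ν)` (Heath-Brown's large sieve for real characters for the middle
range, the Polya-Vinogradov inequality for the long one; for the inverses one uses that `1 - L(v, χ) M(v, χ)` is small,
`M` the polynomial of the inverse). (2) On the line: the factors `L(1/2 + i α_j, χ_d)` are replaced by Dirichlet
polynomials of length `X^η`, one at a time, in the mean square over the shifts and with arbitrary weights, outside
`X^(1 - ν)` discriminants. (3) The main term: the diagonal sum with weights is evaluated through its Euler product.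
-/

namespace Pool.Agent.Results.MP_ea46f5_nt.RatiosOffLine

open Complex MeasureTheory

noncomputable section

/-- The characters `χ_d` of the fundamental discriminants `d` of sign `s` with `|d| = q` (`q ≥ 2`): the real primitive
characters modulo `q` with `χ(-1) = s`. -/
def chars (s : ℤ) (q : ℕ) : Set (DirichletCharacter ℂ q) :=
  {χ | χ.IsPrimitive ∧ χ ^ 2 = 1 ∧ χ (-1) = (s : ℂ)}

/-- The `L`-function of a Dirichlet character modulo `q ≥ 1` (the analytic continuation of `∑ χ(n) n^(-z)`). -/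
def L {q : ℕ} (χ : DirichletCharacter ℂ q) (z : ℂ) : ℂ :=
  if h : q ≠ 0 then haveI : NeZero q := ⟨h⟩; DirichletCharacter.LFunction χ z else 0

/-- The weighted moment: the sum of `∏_i L(u_i, χ_d) ∏_l L(v_l, χ_d)⁻¹ ∏_j L(1/2 + i α_j, χ_d)` over the `d` of sign `s`
with `2 ≤ |d| < X` and `|d|` not in `E`. -/
def moment {k a b : ℕ} (s : ℤ) (X : ℝ) (E : Finset ℕ) (u : Fin a → ℂ) (v : Fin b → ℂ) (α : Fin k → ℝ) : ℂ :=
  ∑ q ∈ Finset.Ico 2 ⌈X⌉₊ \ E, ∑ᶠ χ ∈ chars s q,
    (∏ i, L χ (u i)) * (∏ l, (L χ (v l))⁻¹) * ∏ j, L χ (1 / 2 + I * (α j : ℂ))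

/-- The local factor of the Euler product at the prime `p`. For `a = b = 0` it is the local factor of
`A_k(z_1, …, z_k)`. -/
def localFactor {k a b : ℕ} (z : Fin k → ℂ) (u : Fin a → ℂ) (v : Fin b → ℂ) (p : ℕ) : ℂ :=
  (∏ i, ∏ j ∈ Finset.Ici i, (1 - (p : ℂ) ^ (-(1 + z i + z j)))) *
    (1 / 2 *
      ((∏ j, (1 - (p : ℂ) ^ (-(1 / 2 + z j)))⁻¹) * (∏ i, (1 - (p : ℂ) ^ (-(u i)))⁻¹) *
          (∏ l, (1 - (p : ℂ) ^ (-(v l)))) +
        (∏ j, (1 + (p : ℂ) ^ (-(1 / 2 + z j)))⁻¹) * (∏ i, (1 + (p : ℂ) ^ (-(u i)))⁻¹) *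
          (∏ l, (1 + (p : ℂ) ^ (-(v l))))) + 1 / (p : ℂ)) *
    (1 + 1 / (p : ℂ))⁻¹

/-- The Euler product. -/
def A {k a b : ℕ} (z : Fin k → ℂ) (u : Fin a → ℂ) (v : Fin b → ℂ) : ℂ := ∏' p : Nat.Primes, localFactor z u v p

/-- The Euler product times `∏_{i ≤ j} ζ(1 + z_i + z_j)`. -/
def mainTerm {k a b : ℕ} (z : Fin k → ℂ) (u : Fin a → ℂ) (v : Fin b → ℂ) : ℂ :=
  A z u v * ∏ i, ∏ j ∈ Finset.Ici i, riemannZeta (1 + z i + z j)

lemma mainTerm_eq {k a b : ℕ} (z : Fin k → ℂ) (u : Fin a → ℂ) (v : Fin b → ℂ) :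
    mainTerm z u v = Pool.Agent.V8H6.RW.MTW z u v := by
  unfold mainTerm Pool.Agent.V8H6.RW.MTW A Pool.Agent.V8H6.RW.AkW
  rw [← Pool.Agent.N879.QM.prod_Pr (fun i j => riemannZeta (1 + z i + z j))]
  congr 1
  refine tprod_congr fun p => ?_
  unfold localFactor Pool.Agent.V8H6.RW.locW
  rw [← Pool.Agent.N879.QM.prod_Pr (fun i j => 1 - ((p : ℕ) : ℂ) ^ (-(1 + z i + z j)))]

lemma moment_eq {k a b : ℕ} (s : ℤ) (X : ℝ) (E : Finset ℕ) (u : Fin a → ℂ) (v : Fin b → ℂ) (α : Fin k → ℝ) :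
    moment s X E u v α = ∑ q ∈ Pool.Agent.N879.QM.Q s X \ E, Pool.Agent.V8H6.RW.WW s q u v *
      ∏ j, Pool.Agent.N879.QM.LL s q (Pool.Agent.N879.QM.pt (α j)) := by
  classical
  have h1 : Pool.Agent.N879.QM.Q s X \ E =
      (Finset.Ico 2 ⌈X⌉₊ \ E).filter (Pool.Agent.N879.QM.Is s) := by
    ext q
    unfold Pool.Agent.N879.QM.Q
    simp only [Finset.mem_sdiff, Finset.mem_filter]
    tauto
  rw [h1, Finset.sum_filter]
  refine Finset.sum_congr rfl fun q hq => ?_
  have hq2 : 2 ≤ q := (Finset.mem_Ico.1 (Finset.mem_sdiff.1 hq).1).1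
  split_ifs with h
  · have h2 : chars s q = {Pool.Agent.N879.QM.ch s q} :=
      Pool.Agent.N879.QM.Fq_eq Pool.Agent.N879.QM.t_UNI h
    rw [h2, finsum_mem_singleton]
    rfl
  · have h2 : chars s q = ∅ := Pool.Agent.N879.QM.Fq_empty hq2 h
    rw [h2, finsum_mem_empty]

/-- For all `k ≥ 1`, `a, b ≥ 0`, every sign `s`, every `0 < θ ≤ 1` and every `σ > 0` there are `δ > 0` and `X₀` such that
for all `X ≥ X₀` and all complex `u_1, …, u_a, v_1, …, v_b` with real parts at least `1/2 + σ` and absolute values at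
most `X^δ` there is a set `E` of at most `X^(1 - δ)` conductors such that `L(v_l, χ_d) ≠ 0` for all `l` and all `d` of
sign `s` with `2 ≤ |d| < X` and `|d|` not in `E`, and such that the shift vectors `α` with `|α_j| ≤ X^θ` and
`|∑_d ∏_i L(u_i, χ_d) ∏_l L(v_l, χ_d)⁻¹ ∏_j L(1/2 + i α_j, χ_d) - (3/π²) X M(iα; u; v)| > X^(1 - δ)`, the sum over the
same `d`, form a set of measure at most `X^(kθ - δ)`. -/
theorem result (k a b : ℕ) (hk : 1 ≤ k) (s : ℤ) (hs : s = 1 ∨ s = -1) (θ : ℝ) (hθ : 0 < θ) (hθ1 : θ ≤ 1)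
    (σ : ℝ) (hσ : 0 < σ) :
    ∃ δ X₀ : ℝ, 0 < δ ∧ ∀ X : ℝ, X₀ ≤ X → ∀ (u : Fin a → ℂ) (v : Fin b → ℂ),
      (∀ i, 1 / 2 + σ ≤ (u i).re) → (∀ l, 1 / 2 + σ ≤ (v l).re) → (∀ i, ‖u i‖ ≤ X ^ δ) → (∀ l, ‖v l‖ ≤ X ^ δ) →
      ∃ E : Finset ℕ, (E.card : ℝ) ≤ X ^ (1 - δ) ∧
        (∀ q ∈ Finset.Ico 2 ⌈X⌉₊ \ E, ∀ χ ∈ chars s q, ∀ l, L χ (v l) ≠ 0) ∧
        volume {α : Fin k → ℝ | (∀ j, |α j| ≤ X ^ θ) ∧
          X ^ (1 - δ) < ‖moment s X E u v α -
            (3 / (Real.pi : ℂ) ^ 2) * X * mainTerm (fun j => I * (α j : ℂ)) u v‖} ≤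
        ENNReal.ofReal (X ^ (k * θ - δ)) := by
  classical
  have hτ0 : 0 < min (σ / 2) (1 / 8) := lt_min (by linarith) (by norm_num)
  have hτ1 : min (σ / 2) (1 / 8) ≤ 1 / 8 := min_le_right _ _
  have hτ2 : min (σ / 2) (1 / 8) ≤ σ / 2 := min_le_left _ _
  obtain ⟨δ, X₀, hδ, h⟩ := Pool.Agent.V8H6.RW.mainW k a b hk s hs hθ hθ1 hτ0 hτ1
  refine ⟨δ, X₀, hδ, fun X hX u v hu hv hu2 hv2 => ?_⟩
  obtain ⟨E, -, hE, h0, h1⟩ := h X hX u v (fun i => by linarith [hu i]) (fun i => by linarith [hv i]) hu2 hv2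
  refine ⟨E, hE, ?_, ?_⟩
  · intro q hq χ hχ l
    rw [Finset.mem_sdiff] at hq
    have hq2 : 2 ≤ q := (Finset.mem_Ico.1 hq.1).1
    by_cases hI : Pool.Agent.N879.QM.Is s q
    · have h2 : chars s q = {Pool.Agent.N879.QM.ch s q} :=
        Pool.Agent.N879.QM.Fq_eq Pool.Agent.N879.QM.t_UNI hI
      rw [h2, Set.mem_singleton_iff] at hχ
      rw [hχ]
      have h3 : q ∈ Pool.Agent.N879.QM.Q s X \ E := by
        rw [Finset.mem_sdiff]
        refine ⟨?_, hq.2⟩
        unfold Pool.Agent.N879.QM.Q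
        rw [Finset.mem_filter]
        exact ⟨hq.1, hI⟩
      exact h0 q h3 l
    · have h2 : chars s q = ∅ := Pool.Agent.N879.QM.Fq_empty hq2 hI
      rw [h2] at hχ
      exact absurd hχ (Set.notMem_empty _)
  rw [← Pool.Agent.N879.QM.vol_mS] at h1
  refine le_trans (le_of_eq ?_) h1
  congr 1
  ext α
  have e2 : (3 / (Real.pi : ℂ) ^ 2) * X = ((Pool.Agent.N879.QM.c0 * X : ℝ) : ℂ) := by
    unfold Pool.Agent.N879.QM.c0
    push_cast
    ring
  simp only [Set.mem_setOf_eq, moment_eq, e2, mainTerm_eq]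
  rfl

end

end Pool.Agent.Results.MP_ea46f5_nt.RatiosOffLine
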