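import Pool.Agent.V8H24.QS.AsmP
import Pool.Agent.V8H24.QS.AsmS

set_option autoImplicit false

/-!
# Moments of quadratic Dirichlet `L`-functions over sparse subfamilies, for almost all small shifts

Let `s = ±1`. The fundamental discriminants `d` of sign `s` with `|d| = q ≥ 2` correspond to the real primitive
characters modulo `q` with `χ(-1) = s`. For every `k ≥ 1` and every `0 < θ ≤ 1` there are `δ > 0`, `η > 0` and sets
`E(s, X)` of at most `X^(1 - δ)` conductors, which depend on `k, θ, s, X` only, such that the following holds for the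
shift vectors `α` in the cube `[-X^θ, X^θ]^k`.

1. Arbitrary subfamilies and weights: for every set `D` of conductors `< X` and all weights `|c_q| ≤ 1`, the sum over `D`
   without `E` of `c_q ∏_j L(1/2 + i α_j, χ_d)` equals the sum over `D` of `c_q ∏_j ∑_{n ≤ X^η} χ_d(n) n^(-1/2 - i α_j)`
   up to `X^(1 - δ)`, for all `α` outside a set of measure at most `X^(kθ - δ)`. (The exceptional conductors do not
   depend on the subfamily or on the weights.)
2. Short intervals: the sum over the `d` with `X' ≤ |d| < X`, `|d|` not in `E`, equals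
   `(3/π²) (X - X') A_k(iα) ∏_{i ≤ j} ζ(1 + i α_i + i α_j)` up to `X^(1 - δ)`, outside a set of measure at most
   `X^(kθ - δ)`; this is an asymptotic formula for intervals of length `X^(1 - δ + ε)`.
3. Prime conductors: for every `U`, the sum over the prime discriminants `d = s p`, `p < X` prime, `p ≡ s (mod 4)`, `p`
   not in `E`, equals the number of these primes times `B_k(iα) ∏_{i ≤ j} ζ(1 + i α_i + i α_j)` up to
   `X / (log X)^U`, outside a set of measure at most `X^(kθ) / (log X)^U`. Here `B_k` is the Euler product of the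
   recipe for this family, with the local factors
   `∏_{i ≤ j} (1 - p^(-1 - z_i - z_j)) (1/2) (∏_j (1 - p^(-1/2 - z_j))^(-1) + ∏_j (1 + p^(-1/2 - z_j))^(-1))`.

The proof of 3: the sum over primes of `(n / p)` is small on average over the nonsquare integers `n` up to a small power
of `X`, with the weights of the mean square over the shifts, by the Siegel-Walfisz theorem and the large sieve in the
form of Bombieri and Vinogradov (the real characters `(n / ·)`, `n` squarefree, are induced by different primitive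
characters).
-/

namespace Pool.Agent.Results.MP_ea46f5_nt.SparseSubfamilies

open Complex MeasureTheory

noncomputable section

/-- The characters `χ_d` of the fundamental discriminants `d` of sign `s` with `|d| = q` (`q ≥ 2`): the real primitive
characters modulo `q` with `χ(-1) = s`. -/
def chars (s : ℤ) (q : ℕ) : Set (DirichletCharacter ℂ q) :=
  {χ | χ.IsPrimitive ∧ χ ^ 2 = 1 ∧ χ (-1) = (s : ℂ)}

/-- The `L`-function of a Dirichlet character modulo `q ≥ 1` (the analytic continuation of `∑ χ(n) n^(-z)`). -/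
def L {q : ℕ} (χ : DirichletCharacter ℂ q) (z : ℂ) : ℂ :=
  if h : q ≠ 0 then haveI : NeZero q := ⟨h⟩; DirichletCharacter.LFunction χ z else 0

/-- The shifted moment with weights: the sum of `c_q ∏_j L(1/2 + i α_j, χ_d)` over the `d` of sign `s` with `|d| = q`
in `D`. -/
def moment {k : ℕ} (s : ℤ) (D : Finset ℕ) (c : ℕ → ℂ) (α : Fin k → ℝ) : ℂ :=
  ∑ q ∈ D, c q * ∑ᶠ χ ∈ chars s q, ∏ j, L χ (1 / 2 + I * (α j : ℂ))

/-- The same with the Dirichlet polynomials of length `N` in place of the `L`-functions. -/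
def shortMoment {k : ℕ} (s : ℤ) (D : Finset ℕ) (c : ℕ → ℂ) (N : ℕ) (α : Fin k → ℝ) : ℂ :=
  ∑ q ∈ D, c q * ∑ᶠ χ ∈ chars s q, ∏ j, ∑ n ∈ Finset.Icc 1 N, χ (n : ZMod q) * (n : ℂ) ^ (-(1 / 2 + I * (α j : ℂ)))

/-- The primes `p < X` with `p ≡ s (mod 4)`: the primes for which `s p` is a fundamental discriminant. -/
def primeConductors (s : ℤ) (X : ℝ) : Finset ℕ :=
  (Finset.range ⌈X⌉₊).filter (fun p => p.Prime ∧ (p : ℤ) % 4 = s % 4)

/-- The local factor of `A_k(z_1, …, z_k)` at the prime `p`. -/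
def localFactor {k : ℕ} (z : Fin k → ℂ) (p : ℕ) : ℂ :=
  (∏ i, ∏ j ∈ Finset.Ici i, (1 - (p : ℂ) ^ (-(1 + z i + z j)))) *
    (1 / 2 * ((∏ j, (1 - (p : ℂ) ^ (-(1 / 2 + z j)))⁻¹) + ∏ j, (1 + (p : ℂ) ^ (-(1 / 2 + z j)))⁻¹) + 1 / (p : ℂ)) *
    (1 + 1 / (p : ℂ))⁻¹

/-- The Euler product `A_k(z_1, …, z_k)`. -/
def A {k : ℕ} (z : Fin k → ℂ) : ℂ := ∏' p : Nat.Primes, localFactor z p

/-- `A_k(z) ∏_{i ≤ j} ζ(1 + z_i + z_j)`. -/
def mainTerm {k : ℕ} (z : Fin k → ℂ) : ℂ := A z * ∏ i, ∏ j ∈ Finset.Ici i, riemannZeta (1 + z i + z j)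

/-- The local factor at the prime `p` of the Euler product for prime conductors. -/
def localFactorP {k : ℕ} (z : Fin k → ℂ) (p : ℕ) : ℂ :=
  (∏ i, ∏ j ∈ Finset.Ici i, (1 - (p : ℂ) ^ (-(1 + z i + z j)))) *
    (1 / 2 * ((∏ j, (1 - (p : ℂ) ^ (-(1 / 2 + z j)))⁻¹) + ∏ j, (1 + (p : ℂ) ^ (-(1 / 2 + z j)))⁻¹))

/-- The Euler product `B_k(z_1, …, z_k)` for prime conductors. -/
def B {k : ℕ} (z : Fin k → ℂ) : ℂ := ∏' p : Nat.Primes, localFactorP z p

/-- `B_k(z) ∏_{i ≤ j} ζ(1 + z_i + z_j)`. -/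
def mainTermP {k : ℕ} (z : Fin k → ℂ) : ℂ := B z * ∏ i, ∏ j ∈ Finset.Ici i, riemannZeta (1 + z i + z j)

lemma mainTerm_eq {k : ℕ} (z : Fin k → ℂ) : mainTerm z = Pool.Agent.N879.QM.MT z := by
  unfold mainTerm Pool.Agent.N879.QM.MT A Pool.Agent.N879.QM.Ak
  rw [← Pool.Agent.N879.QM.prod_Pr (fun i j => riemannZeta (1 + z i + z j))]
  congr 1
  refine tprod_congr fun p => ?_
  unfold localFactor Pool.Agent.N879.QM.loc
  rw [← Pool.Agent.N879.QM.prod_Pr (fun i j => 1 - ((p : ℕ) : ℂ) ^ (-(1 + z i + z j)))]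

lemma mainTermP_eq {k : ℕ} (z : Fin k → ℂ) : mainTermP z = Pool.Agent.V8H24.QS.E1.MT z := by
  unfold mainTermP Pool.Agent.V8H24.QS.E1.MT B Pool.Agent.V8H24.QS.E1.Ak
  rw [← Pool.Agent.N879.QM.prod_Pr (fun i j => riemannZeta (1 + z i + z j))]
  congr 1
  refine tprod_congr fun p => ?_
  unfold localFactorP Pool.Agent.V8H24.QS.E1.loc
  rw [← Pool.Agent.N879.QM.prod_Pr (fun i j => 1 - ((p : ℕ) : ℂ) ^ (-(1 + z i + z j)))]

open Classical in
lemma moment_eq {k : ℕ} (s : ℤ) (D : Finset ℕ) (c : ℕ → ℂ) (α : Fin k → ℝ) (hD : ∀ q ∈ D, 2 ≤ q) :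
    moment s D c α = ∑ q ∈ D.filter (Pool.Agent.N879.QM.Is s), c q * ∏ j, Pool.Agent.N879.QM.LL s q
      (Pool.Agent.N879.QM.pt (α j)) := by
  unfold moment
  rw [Finset.sum_filter]
  refine Finset.sum_congr rfl fun q hq => ?_
  split_ifs with h
  · have h2 : chars s q = {Pool.Agent.N879.QM.ch s q} :=
      Pool.Agent.N879.QM.Fq_eq Pool.Agent.N879.QM.t_UNI h
    rw [h2, finsum_mem_singleton]
    rfl
  · have h2 : chars s q = ∅ := Pool.Agent.N879.QM.Fq_empty (hD q hq) h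
    rw [h2, finsum_mem_empty, mul_zero]

open Classical in
lemma shortMoment_eq {k : ℕ} (s : ℤ) (D : Finset ℕ) (c : ℕ → ℂ) (N : ℕ) (α : Fin k → ℝ) (hD : ∀ q ∈ D, 2 ≤ q) :
    shortMoment s D c N α = ∑ q ∈ D.filter (Pool.Agent.N879.QM.Is s), c q * ∏ j, Pool.Agent.N879.QM.PN s q N (α j) := by
  unfold shortMoment
  rw [Finset.sum_filter]
  refine Finset.sum_congr rfl fun q hq => ?_
  split_ifs with h
  · have h2 : chars s q = {Pool.Agent.N879.QM.ch s q} :=
      Pool.Agent.N879.QM.Fq_eq Pool.Agent.N879.QM.t_UNI h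
    rw [h2, finsum_mem_singleton]
    rfl
  · have h2 : chars s q = ∅ := Pool.Agent.N879.QM.Fq_empty (hD q hq) h
    rw [h2, finsum_mem_empty, mul_zero]

/-- For every `k ≥ 1` and every `0 < θ ≤ 1` there are `δ, η > 0`, `X₀` and sets `E(s, X)` such that for both signs `s` and
all `X ≥ X₀` the set `E(s, X)` has at most `X^(1 - δ)` elements and, for the shift vectors `α` with `|α_j| ≤ X^θ`:
(1) for all `D ⊆ [2, X)` and all weights `|c_q| ≤ 1` the weighted moment over `D` without `E(s, X)` differs by more than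
`X^(1 - δ)` from the sum over `D` of the products of the Dirichlet polynomials of length `X^η` only on a set of measure
at most `X^(kθ - δ)`; (2) for `2 ≤ X' ≤ X` the moment over `X' ≤ |d| < X` without `E(s, X)` differs by more than
`X^(1 - δ)` from `(3/π²) (X - X') A_k(iα) ∏_{i ≤ j} ζ(1 + iα_i + iα_j)` only on a set of measure at most `X^(kθ - δ)`;
(3) for all `U` and all `X` large in terms of `U`, the moment over the prime conductors `p < X`, `p ≡ s (mod 4)`, without
`E(s, X)` differs by more than `X / (log X)^U` from the number of these primes times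
`B_k(iα) ∏_{i ≤ j} ζ(1 + iα_i + iα_j)` only on a set of measure at most `X^(kθ) / (log X)^U`. -/
theorem result (k : ℕ) (hk : 1 ≤ k) (θ : ℝ) (hθ : 0 < θ) (hθ1 : θ ≤ 1) :
    ∃ (δ η X₀ : ℝ) (E : ℤ → ℝ → Finset ℕ), 0 < δ ∧ 0 < η ∧
      (∀ (s : ℤ) (X : ℝ), s = 1 ∨ s = -1 → X₀ ≤ X →
        ((E s X).card : ℝ) ≤ X ^ (1 - δ) ∧
        (∀ (D : Finset ℕ) (c : ℕ → ℂ), D ⊆ Finset.Ico 2 ⌈X⌉₊ → (∀ q ∈ D, ‖c q‖ ≤ 1) →
          volume {α : Fin k → ℝ | (∀ j, |α j| ≤ X ^ θ) ∧
            X ^ (1 - δ) < ‖moment s (D \ E s X) c α - shortMoment s D c ⌊X ^ η⌋₊ α‖} ≤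
          ENNReal.ofReal (X ^ (k * θ - δ))) ∧
        (∀ X' : ℝ, 2 ≤ X' → X' ≤ X →
          volume {α : Fin k → ℝ | (∀ j, |α j| ≤ X ^ θ) ∧
            X ^ (1 - δ) < ‖moment s (Finset.Ico ⌈X'⌉₊ ⌈X⌉₊ \ E s X) (fun _ => 1) α -
              (3 / (Real.pi : ℂ) ^ 2) * (X - X') * mainTerm (fun j => I * (α j : ℂ))‖} ≤
          ENNReal.ofReal (X ^ (k * θ - δ)))) ∧
      ∀ U : ℕ, ∃ X₁ : ℝ, ∀ (s : ℤ) (X : ℝ), s = 1 ∨ s = -1 → X₁ ≤ X →
        volume {α : Fin k → ℝ | (∀ j, |α j| ≤ X ^ θ) ∧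
          X / Real.log X ^ U < ‖moment s (primeConductors s X \ E s X) (fun _ => 1) α -
            ((primeConductors s X).card : ℂ) * mainTermP (fun j => I * (α j : ℂ))‖} ≤
        ENNReal.ofReal (X ^ (k * θ) / Real.log X ^ U) := by
  classical
  obtain ⟨m₁, hP⟩ := Pool.Agent.V8H24.QS.prime_main k hk hθ hθ1
  obtain ⟨m₂, hS⟩ := Pool.Agent.V8H24.QS.short_main k hk hθ hθ1
  set m : ℕ := m₁ + m₂ + 4 with hm
  have hm0 : (0 : ℝ) < m := by exact_mod_cast (by omega : 0 < m)
  have hm4 : (4 : ℝ) ≤ m := by exact_mod_cast (by omega : 4 ≤ m)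
  have hP := hP m (by omega)
  obtain ⟨X2, hS⟩ := hS m (by omega)
  have hk0 : (0 : ℝ) < k := by exact_mod_cast hk
  set η : ℝ := θ / m with hη
  have hη0 : 0 < η := by positivity
  have hη4 : η ≤ θ / 4 := by
    rw [hη]
    exact div_le_div_of_nonneg_left hθ.le (by norm_num) hm4
  obtain ⟨X1, hT⟩ := Pool.Agent.V8H24.QS.trans k hk hθ hθ1 hη0 hη4
  set δ : ℝ := η / (256 * k) with hδ
  have hδ0 : 0 < δ := by positivity
  have e128 : η / (128 * k) = 2 * δ := by rw [hδ]; field_simp; norm_num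
  have e32 : η / (32 * k) = 8 * δ := by rw [hδ]; field_simp; norm_num
  set E : ℤ → ℝ → Finset ℕ := fun s X => Pool.Agent.N879.QM.Ex s X (X ^ θ) (η / (8 * k)) with hE
  refine ⟨δ, η, max (max X1 X2) 2, E, hδ0, hη0, ?_, ?_⟩
  · intro s X hs hX
    have hX1 : X1 ≤ X := (le_max_left _ _).trans ((le_max_left _ _).trans hX)
    have hX2 : X2 ≤ X := (le_max_right _ _).trans ((le_max_left _ _).trans hX)
    have hX3 : 2 ≤ X := (le_max_right _ _).trans hX
    have hX4 : 1 ≤ X := by linarith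
    obtain ⟨t1, t2⟩ := hT s X hs hX1
    obtain ⟨f1, f2, f3⟩ := Pool.Agent.N879.QM.floor_half (Real.one_le_rpow hX4 hη0.le : 1 ≤ X ^ η)
    refine ⟨?_, ?_, ?_⟩
    · refine t1.trans (Real.rpow_le_rpow_of_exponent_le hX4 ?_)
      rw [e32]
      linarith
    · intro D c hD hc
      have hD2 : ∀ q ∈ D, 2 ≤ q := fun q hq => (Finset.mem_Ico.1 (hD hq)).1
      have hD' : D.filter (Pool.Agent.N879.QM.Is s) ⊆ Pool.Agent.N879.QM.Q s X := by
        unfold Pool.Agent.N879.QM.Q
        exact Finset.filter_subset_filter _ hD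
      have h1 := t2 ⌊X ^ η⌋₊ f1 f2 f3 (D.filter (Pool.Agent.N879.QM.Is s)) c hD'
        (fun q hq => hc q (Finset.mem_filter.1 hq).1)
      rw [← Pool.Agent.N879.QM.vol_mS] at h1
      refine le_trans (measure_mono ?_) (h1.trans (ENNReal.ofReal_le_ofReal ?_))
      · rintro α ⟨ha, hb⟩
        refine ⟨ha, ?_⟩
        show X ^ (1 - η / (128 * k)) / 2 < _
        rw [moment_eq s _ c α (fun q hq => hD2 q (Finset.mem_sdiff.1 hq).1),
          shortMoment_eq s D c _ α hD2] at hb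
        have e : (D \ E s X).filter (Pool.Agent.N879.QM.Is s) =
            D.filter (Pool.Agent.N879.QM.Is s) \ E s X := by
          ext q
          simp only [Finset.mem_sdiff, Finset.mem_filter]
          tauto
        rw [e] at hb
        refine lt_of_le_of_lt ?_ hb
        have h2 : X ^ (1 - η / (128 * k)) ≤ X ^ (1 - δ) := by
          apply Real.rpow_le_rpow_of_exponent_le hX4
          rw [e128]
          linarith
        have h3 : 0 < X ^ (1 - η / (128 * k)) := by positivity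
        linarith
      · apply Real.rpow_le_rpow_of_exponent_le hX4
        rw [e128]
        linarith
    · intro X' hX' hXX
      have h1 := hS s X X' hs hX2 (by linarith) hXX
      rw [← Pool.Agent.N879.QM.vol_mS] at h1
      refine le_trans (measure_mono ?_) h1
      rintro α ⟨ha, hb⟩
      refine ⟨ha, ?_⟩
      have hce : 2 ≤ ⌈X'⌉₊ := by
        have : (2 : ℝ) ≤ (⌈X'⌉₊ : ℝ) := hX'.trans (Nat.le_ceil _)
        exact_mod_cast this
      have hD2 : ∀ q ∈ Finset.Ico ⌈X'⌉₊ ⌈X⌉₊ \ E s X, 2 ≤ q := fun q hq =>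
        hce.trans (Finset.mem_Ico.1 (Finset.mem_sdiff.1 hq).1).1
      rw [moment_eq s _ _ α hD2, mainTerm_eq] at hb
      have e : (Finset.Ico ⌈X'⌉₊ ⌈X⌉₊ \ E s X).filter (Pool.Agent.N879.QM.Is s) =
          (Pool.Agent.N879.QM.Q s X \ Pool.Agent.N879.QM.Q s X') \ E s X := by
        ext q
        unfold Pool.Agent.N879.QM.Q
        simp only [Finset.mem_sdiff, Finset.mem_filter, Finset.mem_Ico]
        constructor
        · rintro ⟨⟨⟨h1, h2⟩, h3⟩, h4⟩
          exact ⟨⟨⟨⟨by omega, h2⟩, h4⟩, fun h => by have := h.1.2; omega⟩, h3⟩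
        · rintro ⟨⟨⟨⟨h1, h2⟩, h4⟩, h5⟩, h3⟩
          refine ⟨⟨⟨?_, h2⟩, h3⟩, h4⟩
          by_contra hcc
          exact h5 ⟨⟨h1, by omega⟩, h4⟩
      rw [e] at hb
      simp only [one_mul] at hb
      have e2 : (3 / (Real.pi : ℂ) ^ 2) * (X - X') = ((Pool.Agent.N879.QM.c0 * (X - X') : ℝ) : ℂ) := by
        unfold Pool.Agent.N879.QM.c0
        push_cast
        ring
      rw [e2] at hb
      show X ^ (1 - η / (128 * k)) < _
      refine lt_of_le_of_lt ?_ hb
      apply Real.rpow_le_rpow_of_exponent_le hX4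
      rw [e128]
      linarith
  · intro U
    obtain ⟨X₁, hP⟩ := hP U
    refine ⟨X₁, ?_⟩
    intro s X hs hX
    have h1 := hP s X hs hX
    rw [← Pool.Agent.N879.QM.vol_mS] at h1
    refine le_trans (le_of_eq ?_) h1
    congr 1
    ext α
    have hD2 : ∀ q ∈ primeConductors s X \ E s X, 2 ≤ q := fun q hq => by
      have := (Finset.mem_filter.1 (Finset.mem_sdiff.1 hq).1).2.1
      exact this.two_le
    have e : (primeConductors s X \ E s X).filter (Pool.Agent.N879.QM.Is s) =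
        Pool.Agent.V8H24.QS.PD s ⌈X⌉₊ \ E s X := by
      ext q
      rw [Finset.mem_filter, Finset.mem_sdiff, Finset.mem_sdiff]
      constructor
      · rintro ⟨⟨h1, h2⟩, -⟩
        exact ⟨h1, h2⟩
      · rintro ⟨h1, h2⟩
        refine ⟨⟨h1, h2⟩, ?_⟩
        rw [Pool.Agent.V8H24.QS.mem_PD] at h1
        exact Pool.Agent.V8H24.QS.is_prime hs h1.2.1 h1.2.2
    have e2 : (primeConductors s X).card = (Pool.Agent.V8H24.QS.PD s ⌈X⌉₊).card := rfl
    show ((∀ j, |α j| ≤ X ^ θ) ∧ _) ↔ ((∀ j, |α j| ≤ X ^ θ) ∧ _)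
    rw [moment_eq s _ _ α hD2, mainTermP_eq, e, e2]
    simp only [one_mul]
    rfl

end

end Pool.Agent.Results.MP_ea46f5_nt.SparseSubfamilies
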